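import Pool.Agent.R164.NeckMain

/-!
# `g(1,2) = 3`

The value of the discrete necklace-splitting function `g(t,d)` at `(1,2)` is `3`.

Upper bound: colour `(x,y)` by the result of the comparison of the 2-adic valuations of `x` and `y`
(less, greater, equal). Lower bound: in a colouring with two colours without a fairly split
`2 × 2` or `4 × 4` square every row is periodic with period `4`, so the two halves of every
`8 × 8` square are translates of each other.
-/

set_option autoImplicit false

namespace Pool.Agent.Results.MP_9837da_co.NecklaceG12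

open Finset Pool.Agent.R164.Neck

/-- The cube `∏ {a_i + 1, …, a_i + n}` in `ℤ^d`. -/
noncomputable def cube {d : ℕ} (a : Fin d → ℤ) (n : ℕ) : Finset (Fin d → ℤ) :=
  Fintype.piFinset fun i => Finset.Icc (a i + 1) (a i + n)

/-- The pair `(i, m)` stands for the cut `x_i = m + 1/2`. Two points are in the same piece of the
family `K` of cuts if they are on the same side of each cut of `K`. -/
def SamePiece {d : ℕ} (K : Finset (Fin d × ℤ)) (p q : Fin d → ℤ) : Prop :=
  ∀ κ ∈ K, (p κ.1 ≤ κ.2 ↔ q κ.1 ≤ κ.2)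

/-- The family `K` of cuts together with the assignment `part` of the points of `Q` to two parts is
a fair splitting of `Q`: `part` is constant on each piece, and for every colour both parts contain
the same number of points of `Q` of this colour. -/
def IsFairSplitting {d k : ℕ} (c : (Fin d → ℤ) → Fin k) (Q : Finset (Fin d → ℤ))
    (K : Finset (Fin d × ℤ)) (part : (Fin d → ℤ) → Bool) : Prop :=
  (∀ p ∈ Q, ∀ q ∈ Q, SamePiece K p q → part p = part q) ∧
  ∀ j : Fin k, (Q.filter fun p => c p = j ∧ part p = true).card =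
    (Q.filter fun p => c p = j ∧ part p = false).card

/-- No cube has a fair splitting using at most `t` cuts. -/
def Avoids (t : ℕ) {d k : ℕ} (c : (Fin d → ℤ) → Fin k) : Prop :=
  ∀ (a : Fin d → ℤ) (n : ℕ), 1 ≤ n → ∀ K : Finset (Fin d × ℤ), K.card ≤ t →
    ∀ part : (Fin d → ℤ) → Bool, ¬ IsFairSplitting c (cube a n) K part

/-- `g t d` is the least number of colours `k` for which some `k`-colouring of `ℤ^d` has no cube
with a fair splitting using at most `t` cuts (`⊤` if there is none). -/
noncomputable def g (t d : ℕ) : ℕ∞ :=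
  sInf {x : ℕ∞ | ∃ k : ℕ, x = k ∧ ∃ c : (Fin d → ℤ) → Fin k, Avoids t c}

/-! ### Counting in squares -/

lemma card_cube_filter (a : Fin 2 → ℤ) (n : ℕ) (P : (Fin 2 → ℤ) → Prop) [DecidablePred P] :
    ((cube a n).filter P).card =
      ∑ x ∈ Finset.Ico (a 0 + 1) (a 0 + 1 + n),
        ((Finset.Ico (a 1 + 1) (a 1 + 1 + n)).filter fun y => P ![x, y]).card := by
  have h1 : ((cube a n).filter P).card =
      (((Finset.Ico (a 0 + 1) (a 0 + 1 + n)) ×ˢ (Finset.Ico (a 1 + 1) (a 1 + 1 + n))).filter
        fun z => P ![z.1, z.2]).card := by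
    apply Finset.card_nbij' (fun p => (p 0, p 1)) (fun z => ![z.1, z.2])
    · intro p hp
      simp only [Finset.coe_filter, Set.mem_ofPred_eq, cube, Fintype.mem_piFinset, Finset.mem_Icc,
        Fin.forall_fin_two, Finset.mem_product, Finset.mem_Ico] at hp ⊢
      have e : ![p 0, p 1] = p := by
        ext i; fin_cases i <;> rfl
      rw [e]
      refine ⟨⟨⟨by omega, by omega⟩, ⟨by omega, by omega⟩⟩, hp.2⟩
    · intro z hz
      simp only [Finset.coe_filter, Set.mem_ofPred_eq, cube, Fintype.mem_piFinset, Finset.mem_Icc,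
        Fin.forall_fin_two, Finset.mem_product, Finset.mem_Ico, Matrix.cons_val_zero,
        Matrix.cons_val_one] at hz ⊢
      exact ⟨⟨⟨by omega, by omega⟩, ⟨by omega, by omega⟩⟩, hz.2⟩
    · intro p _
      ext i; fin_cases i <;> rfl
    · intro z _
      rfl
  rw [h1, Finset.card_filter, Finset.sum_product]
  apply Finset.sum_congr rfl
  intro x _
  rw [Finset.card_filter]

/-! ### The colouring with three colours -/

/-- colour of `(x,y)` -/
noncomputable def col (x y : ℤ) : Fin 3 :=
  if v x < v y then 1 else if v y < v x then 2 else 0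

noncomputable def theColouring (p : Fin 2 → ℤ) : Fin 3 := col (p 0) (p 1)

lemma col_one (x y : ℤ) : col x y = 1 ↔ v x < v y := by
  unfold col
  split_ifs with h1 h2
  · simp [h1]
  · simp [h1]
  · simp [h1]

lemma col_two (x y : ℤ) : col x y = 2 ↔ v y < v x := by
  unfold col
  split_ifs with h1 h2
  · simp [h1.le]
  · simp [h2]
  · simp [h2]

lemma reduce_single {d k : ℕ} (c : (Fin (d+1) → ℤ) → Fin k) (Q : Finset (Fin (d+1) → ℤ))
    (hQ : Q.Nonempty) (K : Finset (Fin (d+1) × ℤ)) (hK : K.card ≤ 1)
    (part : (Fin (d+1) → ℤ) → Bool) (h : IsFairSplitting c Q K part) :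
    ∃ (i : Fin (d+1)) (m : ℤ), ∀ j : Fin k,
      (Q.filter fun p => c p = j ∧ p i ≤ m).card = (Q.filter fun p => c p = j ∧ ¬ p i ≤ m).card := by
  classical
  obtain ⟨h1, h2⟩ := h
  have hex : ∃ (i : Fin (d+1)) (m : ℤ), ∀ p ∈ Q, ∀ q ∈ Q, (p i ≤ m ↔ q i ≤ m) → part p = part q := by
    rcases Finset.card_le_one_iff_subset_singleton.1 hK with ⟨κ, hκ⟩
    refine ⟨κ.1, κ.2, fun p hp q hq hpq => h1 p hp q hq ?_⟩
    intro κ' hκ'
    have := hκ hκ'
    rw [Finset.mem_singleton] at this
    rw [this]
    exact hpq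
  obtain ⟨i, m, him⟩ := hex
  refine ⟨i, m, ?_⟩
  -- part is not constant
  have hnc : ∀ b : Bool, ¬ ∀ p ∈ Q, part p = b := by
    intro b hb
    obtain ⟨p0, hp0⟩ := hQ
    have := h2 (c p0)
    cases b with
    | true =>
      have e1 : (Q.filter fun p => c p = c p0 ∧ part p = false) = ∅ := by
        apply Finset.filter_eq_empty_iff.2
        intro p hp hh
        rw [hb p hp] at hh
        exact absurd hh.2 (by decide)
      have e2 : p0 ∈ (Q.filter fun p => c p = c p0 ∧ part p = true) := by
        rw [Finset.mem_filter]; exact ⟨hp0, rfl, hb p0 hp0⟩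
      rw [e1, Finset.card_empty, Finset.card_eq_zero] at this
      rw [this] at e2
      simp at e2
    | false =>
      have e1 : (Q.filter fun p => c p = c p0 ∧ part p = true) = ∅ := by
        apply Finset.filter_eq_empty_iff.2
        intro p hp hh
        rw [hb p hp] at hh
        exact absurd hh.2 (by decide)
      have e2 : p0 ∈ (Q.filter fun p => c p = c p0 ∧ part p = false) := by
        rw [Finset.mem_filter]; exact ⟨hp0, rfl, hb p0 hp0⟩
      rw [e1, Finset.card_empty, eq_comm, Finset.card_eq_zero] at this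
      rw [this] at e2
      simp at e2
  -- there are points on both sides
  have hl : ∃ p ∈ Q, p i ≤ m := by
    by_contra hcon
    push Not at hcon
    obtain ⟨p0, hp0⟩ := hQ
    refine hnc (part p0) fun p hp => him p hp p0 hp0 ?_
    have a1 := hcon p hp
    have a2 := hcon p0 hp0
    constructor <;> intro hh <;> omega
  have hr : ∃ p ∈ Q, ¬ p i ≤ m := by
    by_contra hcon
    push Not at hcon
    obtain ⟨p0, hp0⟩ := hQ
    refine hnc (part p0) fun p hp => him p hp p0 hp0 ?_
    have a1 := hcon p hp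
    have a2 := hcon p0 hp0
    constructor <;> intro hh <;> omega
  obtain ⟨pl, hpl, hpl'⟩ := hl
  obtain ⟨pr, hpr, hpr'⟩ := hr
  have hne : part pl ≠ part pr := by
    intro he
    refine hnc (part pl) fun p hp => ?_
    by_cases hh : p i ≤ m
    · exact him p hp pl hpl (by tauto)
    · rw [he]; exact him p hp pr hpr (by tauto)
  intro j
  have hL : ∀ p ∈ Q, (p i ≤ m ↔ part p = part pl) := by
    intro p hp
    constructor
    · intro hh; exact him p hp pl hpl (by tauto)
    · intro hh
      by_contra hh'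
      have := him p hp pr hpr (by tauto)
      exact hne (hh.symm.trans this)
  have e1 : (Q.filter fun p => c p = j ∧ p i ≤ m) = (Q.filter fun p => c p = j ∧ part p = part pl) := by
    apply Finset.filter_congr
    intro p hp
    rw [hL p hp]
  have e2 : (Q.filter fun p => c p = j ∧ ¬ p i ≤ m) = (Q.filter fun p => c p = j ∧ part p = !(part pl)) := by
    apply Finset.filter_congr
    intro p hp
    rw [hL p hp]
    cases part p <;> cases part pl <;> simp
  rw [e1, e2]
  have := h2 j
  cases part pl
  · exact this.symm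
  · exact this


lemma card_cube_filter' (a : Fin 2 → ℤ) (n : ℕ) (P : (Fin 2 → ℤ) → Prop) [DecidablePred P] :
    ((cube a n).filter P).card =
      ∑ y ∈ Finset.Ico (a 1 + 1) (a 1 + 1 + n),
        ((Finset.Ico (a 0 + 1) (a 0 + 1 + n)).filter fun x => P ![x, y]).card := by
  rw [card_cube_filter]
  simp only [Finset.card_filter]
  rw [Finset.sum_comm]

/-- A one-dimensional fact: a cut into two halves with equally many points is in the middle. -/
lemma middle (b m : ℤ) (n : ℕ) (hn : 1 ≤ n)
    (h : ((Finset.Ico (b + 1) (b + 1 + n)).filter fun y => y ≤ m).card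
      = ((Finset.Ico (b + 1) (b + 1 + n)).filter fun y => ¬ y ≤ m).card) :
    ∃ r : ℕ, 1 ≤ r ∧ n = 2 * r ∧ m = b + r := by
  by_cases h1 : m < b + 1
  · exfalso
    have e1 : (Finset.Ico (b + 1) (b + 1 + n)).filter (fun y => y ≤ m) = ∅ := by
      apply Finset.filter_eq_empty_iff.2
      intro y hy
      rw [Finset.mem_Ico] at hy
      omega
    have e2 : (Finset.Ico (b + 1) (b + 1 + n)).filter (fun y => ¬ y ≤ m)
        = Finset.Ico (b + 1) (b + 1 + n) := by
      apply Finset.filter_eq_self.2
      intro y hy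
      rw [Finset.mem_Ico] at hy
      omega
    rw [e1, e2, Finset.card_empty, Int.card_Ico] at h
    omega
  by_cases h2 : b + n ≤ m
  · exfalso
    have e1 : (Finset.Ico (b + 1) (b + 1 + n)).filter (fun y => ¬ y ≤ m) = ∅ := by
      apply Finset.filter_eq_empty_iff.2
      intro y hy
      rw [Finset.mem_Ico] at hy
      omega
    have e2 : (Finset.Ico (b + 1) (b + 1 + n)).filter (fun y => y ≤ m)
        = Finset.Ico (b + 1) (b + 1 + n) := by
      apply Finset.filter_eq_self.2
      intro y hy
      rw [Finset.mem_Ico] at hy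
      omega
    rw [e1, e2, Finset.card_empty, Int.card_Ico] at h
    omega
  have e1 : (Finset.Ico (b + 1) (b + 1 + n)).filter (fun y => y ≤ m) = Finset.Ico (b + 1) (m + 1) := by
    ext y
    simp only [Finset.mem_filter, Finset.mem_Ico]
    omega
  have e2 : (Finset.Ico (b + 1) (b + 1 + n)).filter (fun y => ¬ y ≤ m)
      = Finset.Ico (m + 1) (b + 1 + n) := by
    ext y
    simp only [Finset.mem_filter, Finset.mem_Ico]
    omega
  rw [e1, e2, Int.card_Ico, Int.card_Ico] at h
  exact ⟨(m - b).toNat, by omega, by omega, by omega⟩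

lemma low_half (b : ℤ) (r : ℕ) (P : ℤ → Prop) [DecidablePred P] :
    ((Finset.Ico (b + 1) (b + 1 + ((2 * r : ℕ) : ℤ))).filter fun y => P y ∧ y ≤ b + r)
      = (Finset.Ico (b + 1) (b + 1 + r)).filter P := by
  ext y
  simp only [Finset.mem_filter, Finset.mem_Ico]
  push_cast
  constructor
  · rintro ⟨h1, h2, h3⟩
    exact ⟨by omega, h2⟩
  · rintro ⟨h1, h2⟩
    exact ⟨by omega, h2, by omega⟩

lemma high_half (b : ℤ) (r : ℕ) (P : ℤ → Prop) [DecidablePred P] :
    ((Finset.Ico (b + 1) (b + 1 + ((2 * r : ℕ) : ℤ))).filter fun y => P y ∧ ¬ y ≤ b + r)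
      = (Finset.Ico (b + 1 + r) (b + 1 + 2 * r)).filter P := by
  ext y
  simp only [Finset.mem_filter, Finset.mem_Ico]
  push_cast
  constructor
  · rintro ⟨h1, h2, h3⟩
    exact ⟨by omega, h2⟩
  · rintro ⟨h1, h2⟩
    exact ⟨by omega, h2, by omega⟩

theorem avoids_theColouring : Avoids 1 theColouring := by
  classical
  intro a n hn K hK part hfair
  have hQ : (cube a n).Nonempty := by
    refine ⟨fun i => a i + 1, ?_⟩
    rw [cube, Fintype.mem_piFinset]
    intro i
    rw [Finset.mem_Icc]
    constructor <;> omega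
  obtain ⟨i, m, h⟩ := reduce_single theColouring (cube a n) hQ K hK part hfair
  -- the two halves have the same number of points
  have htot : ((cube a n).filter fun p => p i ≤ m).card = ((cube a n).filter fun p => ¬ p i ≤ m).card := by
    have e : ∀ (P : (Fin 2 → ℤ) → Prop) [DecidablePred P], ((cube a n).filter P).card
        = ∑ j : Fin 3, ((cube a n).filter fun p => theColouring p = j ∧ P p).card := by
      intro P _
      rw [Finset.card_eq_sum_card_fiberwise (f := theColouring) (t := Finset.univ)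
        (fun _ _ => Finset.mem_coe.2 (Finset.mem_univ _))]
      apply Finset.sum_congr rfl
      intro j _
      rw [Finset.filter_filter]
      congr 1
      apply Finset.filter_congr
      intro p _
      tauto
    rw [e (fun p => p i ≤ m), e (fun p => ¬ p i ≤ m)]
    exact Finset.sum_congr rfl fun j _ => h j
  have h1 := h 1
  have h2 := h 2
  have hi : i = 0 ∨ i = 1 := by
    fin_cases i
    · left; rfl
    · right; rfl
  rcases hi with rfl | rfl
  · -- a cut between rows
    rw [card_cube_filter' a n, card_cube_filter' a n] at htot h1 h2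
    have htot : ∑ _y ∈ Finset.Ico (a 1 + 1) (a 1 + 1 + (n : ℤ)),
          ((Finset.Ico (a 0 + 1) (a 0 + 1 + (n : ℤ))).filter fun x => x ≤ m).card
        = ∑ _y ∈ Finset.Ico (a 1 + 1) (a 1 + 1 + (n : ℤ)),
          ((Finset.Ico (a 0 + 1) (a 0 + 1 + (n : ℤ))).filter fun x => ¬ x ≤ m).card := htot
    rw [Finset.sum_const, Finset.sum_const, smul_eq_mul, smul_eq_mul] at htot
    have hpos : 0 < (Finset.Ico (a 1 + 1) (a 1 + 1 + (n : ℤ))).card := by
      rw [Int.card_Ico]; omega
    obtain ⟨r, hr1, hr2, hr3⟩ := middle (a 0) m n hn (Nat.eq_of_mul_eq_mul_left hpos htot)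
    subst hr2
    subst hr3
    simp only [theColouring, Matrix.cons_val_zero, Matrix.cons_val_one, col_one, col_two] at h1 h2
    refine key (a 1 + 1) (a 0 + 1) r hr1 ?_ ?_
    · unfold be
      rw [Finset.sum_sub_distrib, sub_eq_zero]
      have h3 := congrArg (Nat.cast (R := ℤ)) h2
      rw [Nat.cast_sum, Nat.cast_sum] at h3
      simp only [low_half (a 0) r, high_half (a 0) r] at h3
      push_cast at h3 ⊢
      exact h3
    · unfold ga
      rw [Finset.sum_sub_distrib, sub_eq_zero]
      have h3 := congrArg (Nat.cast (R := ℤ)) h1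
      rw [Nat.cast_sum, Nat.cast_sum] at h3
      simp only [low_half (a 0) r, high_half (a 0) r] at h3
      push_cast at h3 ⊢
      exact h3
  · -- a cut between columns
    rw [card_cube_filter a n, card_cube_filter a n] at htot h1 h2
    have htot : ∑ _x ∈ Finset.Ico (a 0 + 1) (a 0 + 1 + (n : ℤ)),
          ((Finset.Ico (a 1 + 1) (a 1 + 1 + (n : ℤ))).filter fun y => y ≤ m).card
        = ∑ _x ∈ Finset.Ico (a 0 + 1) (a 0 + 1 + (n : ℤ)),
          ((Finset.Ico (a 1 + 1) (a 1 + 1 + (n : ℤ))).filter fun y => ¬ y ≤ m).card := htot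
    rw [Finset.sum_const, Finset.sum_const, smul_eq_mul, smul_eq_mul] at htot
    have hpos : 0 < (Finset.Ico (a 0 + 1) (a 0 + 1 + (n : ℤ))).card := by
      rw [Int.card_Ico]; omega
    obtain ⟨r, hr1, hr2, hr3⟩ := middle (a 1) m n hn (Nat.eq_of_mul_eq_mul_left hpos htot)
    subst hr2
    subst hr3
    simp only [theColouring, Matrix.cons_val_zero, Matrix.cons_val_one, col_one, col_two] at h1 h2
    refine key (a 0 + 1) (a 1 + 1) r hr1 ?_ ?_
    · unfold be
      rw [Finset.sum_sub_distrib, sub_eq_zero]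
      have h3 := congrArg (Nat.cast (R := ℤ)) h1
      rw [Nat.cast_sum, Nat.cast_sum] at h3
      simp only [low_half (a 1) r, high_half (a 1) r] at h3
      push_cast at h3 ⊢
      exact h3
    · unfold ga
      rw [Finset.sum_sub_distrib, sub_eq_zero]
      have h3 := congrArg (Nat.cast (R := ℤ)) h2
      rw [Nat.cast_sum, Nat.cast_sum] at h3
      simp only [low_half (a 1) r, high_half (a 1) r] at h3
      push_cast at h3 ⊢
      exact h3


/-! ### Two colours do not suffice -/

lemma sum_Ico_int (f : ℤ → ℕ) (x : ℤ) (n : ℕ) :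
    ∑ u ∈ Finset.Ico x (x + n), f u = ∑ i ∈ Finset.range n, f (x + i) := by
  induction n with
  | zero => simp
  | succ n ih =>
    have h1 : Finset.Ico x (x + ((n + 1 : ℕ) : ℤ)) = insert (x + n) (Finset.Ico x (x + n)) := by
      ext z
      simp only [Finset.mem_Ico, Finset.mem_insert]
      push_cast
      constructor
      · intro h; omega
      · intro h; omega
    rw [h1, Finset.sum_insert (by simp), ih, Finset.sum_range_succ, add_comm]

/-- colour zero as a Boolean -/
def tb {k : ℕ} (c : (Fin 2 → ℤ) → Fin k) (x y : ℤ) : Bool := decide ((c ![x, y]).val = 0)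

lemma count_eq {k : ℕ} (hk : k ≤ 2) (j : Fin k) (I L R : Finset ℤ) (hLR : L.card = R.card)
    (G : ℤ → ℤ → Fin k)
    (h : ∑ x ∈ I, ∑ y ∈ L, (decide ((G x y).val = 0)).toNat
      = ∑ x ∈ I, ∑ y ∈ R, (decide ((G x y).val = 0)).toNat) :
    ∑ x ∈ I, (L.filter fun y => G x y = j).card = ∑ x ∈ I, (R.filter fun y => G x y = j).card := by
  have hz : ∀ (H : Finset ℤ) (x : ℤ), (H.filter fun y => (G x y).val = 0).card
      = ∑ y ∈ H, (decide ((G x y).val = 0)).toNat := by
    intro H x
    rw [Finset.card_filter]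
    apply Finset.sum_congr rfl
    intro y _
    by_cases hh : (G x y).val = 0 <;> simp [hh]
  have hj : j.val = 0 ∨ j.val = 1 := by
    have := j.isLt
    omega
  rcases hj with hj | hj
  · have e : ∀ x y, (G x y = j) ↔ ((G x y).val = 0) := by
      intro x y
      rw [Fin.ext_iff, hj]
    simp only [e, hz]
    exact h
  · have e : ∀ x y, (G x y = j) ↔ ¬ ((G x y).val = 0) := by
      intro x y
      have := (G x y).isLt
      rw [Fin.ext_iff, hj]
      omega
    simp only [e]
    have hc : ∀ (H : Finset ℤ), ∑ x ∈ I, (H.filter fun y => ¬ (G x y).val = 0).card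
        + ∑ x ∈ I, ∑ y ∈ H, (decide ((G x y).val = 0)).toNat = I.card * H.card := by
      intro H
      rw [← Finset.sum_add_distrib]
      rw [Finset.sum_congr rfl (g := fun _ => H.card)]
      · rw [Finset.sum_const, smul_eq_mul]
      · intro x _
        rw [← hz, add_comm]
        exact Finset.card_filter_add_card_filter_not _
    have c1 := hc L
    have c2 := hc R
    rw [hLR] at c1
    omega

lemma unfairV {k : ℕ} (hk : k ≤ 2) (c : (Fin 2 → ℤ) → Fin k) (hc : Avoids 1 c) (x y : ℤ) (r : ℕ)
    (hr : 1 ≤ r) :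
    ∑ i ∈ Finset.range (2 * r), ∑ j ∈ Finset.range r, (tb c (x + i) (y + j)).toNat
      ≠ ∑ i ∈ Finset.range (2 * r), ∑ j ∈ Finset.range r, (tb c (x + i) (y + r + j)).toNat := by
  classical
  intro h
  refine hc ![x - 1, y - 1] (2 * r) (by omega) {(1, y - 1 + r)} (by simp)
    (fun p => decide (p 1 ≤ y - 1 + r)) ⟨?_, ?_⟩
  · intro p _ q _ hpq
    have := hpq (1, y - 1 + r) (Finset.mem_singleton_self _)
    simp only at this
    simp only [this]
  · intro j
    simp only [decide_eq_true_eq, decide_eq_false_iff_not]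
    rw [card_cube_filter, card_cube_filter]
    simp only [Matrix.cons_val_zero, Matrix.cons_val_one, Matrix.cons_val_fin_one]
    simp only [low_half (y - 1) r, high_half (y - 1) r]
    apply count_eq hk j _ _ _ _ (fun x y => c ![x, y])
    · have e1 : x - 1 + 1 = x := by ring
      have e2 : y - 1 + 1 = y := by ring
      have e3 : y + 2 * (r : ℤ) = (y + r) + r := by ring
      rw [e1, e2, e3, sum_Ico_int, sum_Ico_int]
      simp only [sum_Ico_int]
      exact h
    · rw [Int.card_Ico, Int.card_Ico]; omega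

lemma unfairH {k : ℕ} (hk : k ≤ 2) (c : (Fin 2 → ℤ) → Fin k) (hc : Avoids 1 c) (x y : ℤ) (r : ℕ)
    (hr : 1 ≤ r) :
    ∑ j ∈ Finset.range (2 * r), ∑ i ∈ Finset.range r, (tb c (x + i) (y + j)).toNat
      ≠ ∑ j ∈ Finset.range (2 * r), ∑ i ∈ Finset.range r, (tb c (x + r + i) (y + j)).toNat := by
  classical
  intro h
  refine hc ![x - 1, y - 1] (2 * r) (by omega) {(0, x - 1 + r)} (by simp)
    (fun p => decide (p 0 ≤ x - 1 + r)) ⟨?_, ?_⟩
  · intro p _ q _ hpq
    have := hpq (0, x - 1 + r) (Finset.mem_singleton_self _)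
    simp only at this
    simp only [this]
  · intro j
    simp only [decide_eq_true_eq, decide_eq_false_iff_not]
    rw [card_cube_filter', card_cube_filter']
    refine (Finset.sum_congr rfl fun y' _ => congrArg Finset.card
      (low_half (x - 1) r (fun x' => c ![x', y'] = j))).trans (Eq.trans ?_
      (Finset.sum_congr rfl fun y' _ => congrArg Finset.card
        (high_half (x - 1) r (fun x' => c ![x', y'] = j))).symm)
    apply count_eq hk j _ _ _ _ (fun y x => c ![x, y])
    · have e1 : x - 1 + 1 = x := by ring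
      have e2 : y - 1 + 1 = y := by ring
      have e3 : x + 2 * (r : ℤ) = (x + r) + r := by ring
      simp only [Matrix.cons_val_one, Matrix.cons_val_fin_one]
      rw [e1, e2, e3, sum_Ico_int, sum_Ico_int]
      simp only [sum_Ico_int]
      exact h
    · rw [Int.card_Ico, Int.card_Ico]; omega

/-- the finite check for `4 × 4` squares all of whose `2 × 2` squares have odd sum -/
lemma window (t00 t01 t02 t03 t10 t11 t12 t13 t20 t21 t22 t23 t30 t31 t32 t33 : Bool)
    (e11 : t11 = !(t00 ^^ t10 ^^ t01)) (e12 : t12 = !(t01 ^^ t11 ^^ t02))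
    (e13 : t13 = !(t02 ^^ t12 ^^ t03)) (e21 : t21 = !(t10 ^^ t20 ^^ t11))
    (e22 : t22 = !(t11 ^^ t21 ^^ t12)) (e23 : t23 = !(t12 ^^ t22 ^^ t13))
    (e31 : t31 = !(t20 ^^ t30 ^^ t21)) (e32 : t32 = !(t21 ^^ t31 ^^ t22))
    (e33 : t33 = !(t22 ^^ t32 ^^ t23))
    (hV : t00.toNat + t01.toNat + t10.toNat + t11.toNat + t20.toNat + t21.toNat + t30.toNat
      + t31.toNat ≠ t02.toNat + t03.toNat + t12.toNat + t13.toNat + t22.toNat + t23.toNat
      + t32.toNat + t33.toNat)
    (hH : t00.toNat + t10.toNat + t01.toNat + t11.toNat + t02.toNat + t12.toNat + t03.toNat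
      + t13.toNat ≠ t20.toNat + t30.toNat + t21.toNat + t31.toNat + t22.toNat + t32.toNat
      + t23.toNat + t33.toNat) :
    (t00 ^^ t01 ^^ t02 ^^ t03) = true := by
  subst e11 e12 e13 e21 e22 e23 e31 e32 e33
  revert t00 t01 t02 t03 t10 t20 t30
  decide

lemma block (a b c d : Bool) (h1 : a.toNat + b.toNat ≠ c.toNat + d.toNat)
    (h2 : a.toNat + c.toNat ≠ b.toNat + d.toNat) : d = !(a ^^ b ^^ c) := by
  revert a b c d
  decide

theorem not_avoids_two {k : ℕ} (hk : k ≤ 2) (c : (Fin 2 → ℤ) → Fin k) : ¬ Avoids 1 c := by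
  intro hc
  have hblock : ∀ x y : ℤ, tb c (x + 1) (y + 1) = !(tb c x y ^^ tb c (x + 1) y ^^ tb c x (y + 1)) := by
    intro x y
    have h1 := unfairV hk c hc x y 1 le_rfl
    have h2 := unfairH hk c hc x y 1 le_rfl
    simp only [Finset.sum_range_succ, Finset.sum_range_zero, mul_one, Nat.cast_zero, Nat.cast_one,
      add_zero, zero_add] at h1 h2
    norm_num [Finset.sum_range_succ] at h1 h2
    exact block _ _ _ _ h1 h2
  have hwin : ∀ x y : ℤ, (tb c x y ^^ tb c x (y + 1) ^^ tb c x (y + 2) ^^ tb c x (y + 3)) = true := by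
    intro x y
    have h1 := unfairV hk c hc x y 2 (by norm_num)
    have h2 := unfairH hk c hc x y 2 (by norm_num)
    norm_num [Finset.sum_range_succ] at h1 h2
    have a1 : ∀ z : ℤ, z + 1 + 1 = z + 2 := fun z => by ring
    have a2 : ∀ z : ℤ, z + 2 + 1 = z + 3 := fun z => by ring
    have b11 := hblock x y
    have b12 := hblock x (y + 1)
    have b13 := hblock x (y + 2)
    have b21 := hblock (x + 1) y
    have b22 := hblock (x + 1) (y + 1)
    have b23 := hblock (x + 1) (y + 2)
    have b31 := hblock (x + 2) y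
    have b32 := hblock (x + 2) (y + 1)
    have b33 := hblock (x + 2) (y + 2)
    simp only [a1, a2] at b11 b12 b13 b21 b22 b23 b31 b32 b33 h1 h2
    refine window _ _ _ _ _ _ _ _ _ _ _ _ _ _ _ _ b11 b12 b13 b21 b22 b23 b31 b32 b33 ?_ ?_
    · intro h; apply h1; omega
    · intro h; apply h2; omega
  have hper : ∀ x y : ℤ, tb c x (y + 4) = tb c x y := by
    intro x y
    have h1 := hwin x y
    have h2 := hwin x (y + 1)
    rw [show y + 1 + 1 = y + 2 by ring, show y + 1 + 2 = y + 3 by ring,
      show y + 1 + 3 = y + 4 by ring] at h2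
    revert h1 h2
    generalize tb c x y = p0
    generalize tb c x (y + 1) = p1
    generalize tb c x (y + 2) = p2
    generalize tb c x (y + 3) = p3
    generalize tb c x (y + 4) = p4
    revert p0 p1 p2 p3 p4
    decide
  refine unfairV hk c hc 0 0 4 (by norm_num) ?_
  apply Finset.sum_congr rfl
  intro i _
  apply Finset.sum_congr rfl
  intro j _
  have := hper (0 + (i : ℤ)) (0 + (j : ℤ))
  rw [show (0 : ℤ) + ((4 : ℕ) : ℤ) + (j : ℤ) = 0 + (j : ℤ) + 4 by push_cast; ring, this]

/-- `g(1,2) = 3`. -/
theorem result : g 1 2 = 3 := by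
  unfold g
  apply le_antisymm
  · exact sInf_le ⟨3, rfl, theColouring, avoids_theColouring⟩
  · apply le_sInf
    rintro x ⟨k, rfl, c, hc⟩
    by_contra hlt
    rw [not_le] at hlt
    have hk : k < 3 := by exact_mod_cast hlt
    exact not_avoids_two (by omega) c hc

end Pool.Agent.Results.MP_9837da_co.NecklaceG12
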