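import Mathlib

/-!
# Subset sums without three-term progressions

The conjectured value `g_3(k) = 3^(k-1)` is wrong for every `k ≥ 3`. The set of nonempty subset
sums of `b_1 < ... < b_k` has no three-term progression if and only if the `3^k` sums
`∑ d_i b_i`, `d_i ∈ {0,1,2}`, are distinct. This is a base-3 version of the distinct subset sums
problem of Erdős, for which a Conway–Guy type construction beats the powers of three, and a second
moment computation gives a lower bound.
-/

set_option autoImplicit false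

namespace Pool.Agent.Results.MP_727445_co.SubsetSumsAP

/-- The set of the values of the nonempty subset sums of `b`. -/
def sums {k : ℕ} (b : Fin k → ℕ) : Set ℤ :=
  {s | ∃ T : Finset (Fin k), T.Nonempty ∧ s = ∑ i ∈ T, (b i : ℤ)}

/-- `S` contains an `r`-term arithmetic progression `x, x + d, …, x + (r-1) d` with `d ≠ 0`. -/
def HasAP (r : ℕ) (S : Set ℤ) : Prop :=
  ∃ x d : ℤ, d ≠ 0 ∧ ∀ i : ℕ, i < r → x + i * d ∈ S

/-- The minimum of the largest term over all sequences `b_1 < … < b_k` of positive integers whose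
set of nonempty subset sums contains no `r`-term arithmetic progression. -/
noncomputable def g (r k : ℕ) : ℕ :=
  sInf {m | ∃ b : Fin k → ℕ, StrictMono b ∧ (∀ i, 0 < b i) ∧ ¬ HasAP r (sums b) ∧
    IsGreatest (Set.range b) m}

/-! ### Three-term progressions and ternary sums -/

/-- The sums `∑ d_i b_i` with `d_i ∈ {0,1,2}` are distinct. -/
def Tern {k : ℕ} (b : Fin k → ℕ) : Prop :=
  ∀ c : Fin k → ℤ, (∀ i, -2 ≤ c i ∧ c i ≤ 2) → ∑ i, c i * (b i : ℤ) = 0 → ∀ i, c i = 0

lemma sum_ind {k : ℕ} (b : Fin k → ℕ) (T : Finset (Fin k)) :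
    ∑ i ∈ T, (b i : ℤ) = ∑ i, (if i ∈ T then 1 else 0 : ℤ) * (b i : ℤ) := by
  simp [Finset.sum_ite_mem]

lemma not_hasAP_of_tern {k : ℕ} (b : Fin k → ℕ) (hb : Tern b) : ¬ HasAP 3 (sums b) := by
  rintro ⟨x, d, hd, h⟩
  obtain ⟨T0, _, e0⟩ := h 0 (by norm_num)
  obtain ⟨T1, _, e1⟩ := h 1 (by norm_num)
  obtain ⟨T2, _, e2⟩ := h 2 (by norm_num)
  rw [sum_ind] at e0 e1 e2
  push_cast at e0 e1 e2
  have hc := hb (fun i => (if i ∈ T0 then 1 else 0) + (if i ∈ T2 then 1 else 0)
    - 2 * (if i ∈ T1 then 1 else 0)) (by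
      intro i
      split_ifs <;> norm_num) (by
      have : ∑ i, ((if i ∈ T0 then 1 else 0) + (if i ∈ T2 then 1 else 0)
          - 2 * (if i ∈ T1 then 1 else 0) : ℤ) * (b i : ℤ)
          = ∑ i, (if i ∈ T0 then 1 else 0 : ℤ) * (b i : ℤ)
            + ∑ i, (if i ∈ T2 then 1 else 0 : ℤ) * (b i : ℤ)
            - 2 * ∑ i, (if i ∈ T1 then 1 else 0 : ℤ) * (b i : ℤ) := by
        rw [← Finset.sum_add_distrib, Finset.mul_sum, ← Finset.sum_sub_distrib]
        apply Finset.sum_congr rfl
        intro i _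
        ring
      rw [this, ← e0, ← e1, ← e2]
      ring)
  have h01 : ∀ i, (if i ∈ T0 then 1 else 0 : ℤ) = (if i ∈ T1 then 1 else 0) := by
    intro i
    have := hc i
    revert this
    split_ifs <;> norm_num
  have : x + 0 * d = x + 1 * d := by
    rw [e0, e1]
    exact Finset.sum_congr rfl fun i _ => by rw [h01 i]
  apply hd
  linarith

/-- a three-term progression from three sets -/
lemma ap_of_sets {k : ℕ} (b : Fin k → ℕ) (X Y W : Finset (Fin k)) (hX : X.Nonempty)
    (hY : Y.Nonempty) (hW : W.Nonempty) (c : Fin k → ℤ)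
    (hc : ∀ i, (if i ∈ X then 1 else 0 : ℤ) + (if i ∈ Y then 1 else 0)
      - 2 * (if i ∈ W then 1 else 0) = c i)
    (h0 : ∑ i, c i * (b i : ℤ) = 0)
    (hne : ∑ i ∈ X, (b i : ℤ) ≠ ∑ i ∈ Y, (b i : ℤ)) : HasAP 3 (sums b) := by
  have key : ∑ i ∈ X, (b i : ℤ) + ∑ i ∈ Y, (b i : ℤ) = 2 * ∑ i ∈ W, (b i : ℤ) := by
    have : ∑ i, c i * (b i : ℤ)
          = ∑ i, (if i ∈ X then 1 else 0 : ℤ) * (b i : ℤ)
            + ∑ i, (if i ∈ Y then 1 else 0 : ℤ) * (b i : ℤ)
            - 2 * ∑ i, (if i ∈ W then 1 else 0 : ℤ) * (b i : ℤ) := by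
      rw [← Finset.sum_add_distrib, Finset.mul_sum, ← Finset.sum_sub_distrib]
      apply Finset.sum_congr rfl
      intro i _
      rw [← hc i]
      ring
    rw [sum_ind b X, sum_ind b Y, sum_ind b W]
    linarith
  refine ⟨∑ i ∈ X, (b i : ℤ), ∑ i ∈ W, (b i : ℤ) - ∑ i ∈ X, (b i : ℤ), ?_, ?_⟩
  · intro h
    apply hne
    linarith
  · intro i hi
    interval_cases i
    · exact ⟨X, hX, by push_cast; ring⟩
    · exact ⟨W, hW, by push_cast; ring⟩
    · exact ⟨Y, hY, by push_cast; linarith⟩

lemma sum_pos_of {k : ℕ} (b : Fin k → ℕ) (hpos : ∀ i, 0 < b i) (T : Finset (Fin k))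
    (hT : T.Nonempty) : 0 < ∑ i ∈ T, (b i : ℤ) := by
  apply Finset.sum_pos _ hT
  intro i _
  exact_mod_cast hpos i

/-- equal sums of disjoint sets give a progression -/
lemma ap_of_eq {k : ℕ} (b : Fin k → ℕ) (hpos : ∀ i, 0 < b i) (A B : Finset (Fin k))
    (hAB : Disjoint A B) (hA : 2 ≤ A.card) (hB : B.Nonempty)
    (h : ∑ i ∈ A, (b i : ℤ) = ∑ i ∈ B, (b i : ℤ)) : HasAP 3 (sums b) := by
  classical
  obtain ⟨p, hp⟩ : A.Nonempty := Finset.card_pos.1 (by omega)
  have hpB : p ∉ B := Finset.disjoint_left.1 hAB hp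
  have e1 : ∑ i ∈ A.erase p, (b i : ℤ) = ∑ i ∈ A, (b i : ℤ) - b p := by
    rw [← Finset.add_sum_erase A _ hp]; ring
  have e2 : ∑ i ∈ insert p B, (b i : ℤ) = ∑ i ∈ B, (b i : ℤ) + b p := by
    rw [Finset.sum_insert hpB]; ring
  refine ⟨∑ i ∈ A.erase p, (b i : ℤ), b p, ?_, ?_⟩
  · have := hpos p
    exact_mod_cast this.ne'
  · intro i hi
    interval_cases i
    · exact ⟨A.erase p, by rw [← Finset.card_pos, Finset.card_erase_of_mem hp]; omega, by
        push_cast; ring⟩
    · exact ⟨B, hB, by rw [e1, ← h]; push_cast; ring⟩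
    · exact ⟨insert p B, Finset.insert_nonempty _ _, by rw [e1, e2, ← h]; push_cast; ring⟩

lemma hasAP_of_not_tern {k : ℕ} (b : Fin k → ℕ) (hinj : Function.Injective b)
    (hpos : ∀ i, 0 < b i) (hb : ¬ Tern b) : HasAP 3 (sums b) := by
  classical
  unfold Tern at hb
  push Not at hb
  obtain ⟨c, hcb, hc0, i0, hi0⟩ := hb
  have hbz : ∀ i, (0 : ℤ) < b i := fun i => by exact_mod_cast hpos i
  -- some coefficient is negative and some is positive
  have hneg : ∃ i, c i < 0 := by
    by_contra hcon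
    push Not at hcon
    have h1 : ∀ i ∈ (Finset.univ : Finset (Fin k)), 0 ≤ c i * (b i : ℤ) :=
      fun i _ => mul_nonneg (hcon i) (hbz i).le
    have h2 := (Finset.sum_eq_zero_iff_of_nonneg h1).1 hc0 i0 (Finset.mem_univ _)
    rcases mul_eq_zero.1 h2 with h | h
    · exact hi0 h
    · exact (hbz i0).ne' h
  have hposc : ∃ i, 0 < c i := by
    by_contra hcon
    push Not at hcon
    have h1 : ∀ i ∈ (Finset.univ : Finset (Fin k)), 0 ≤ -(c i * (b i : ℤ)) := by
      intro i _
      have := mul_nonneg (neg_nonneg.2 (hcon i)) (hbz i).le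
      linarith
    have hs : ∑ i, -(c i * (b i : ℤ)) = 0 := by rw [Finset.sum_neg_distrib, hc0, neg_zero]
    have h2 := (Finset.sum_eq_zero_iff_of_nonneg h1).1 hs i0 (Finset.mem_univ _)
    have h3 : c i0 * (b i0 : ℤ) = 0 := by linarith
    rcases mul_eq_zero.1 h3 with h | h
    · exact hi0 h
    · exact (hbz i0).ne' h
  set O : Finset (Fin k) := Finset.univ.filter (fun i => c i = 1 ∨ c i = -1) with hO
  -- the general construction
  have gen : ∀ (A : Finset (Fin k)) (z : Prop) [Decidable z], A ⊆ O →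
      (∃ i, c i = 2 ∨ i ∈ A ∨ (z ∧ c i = 0)) →
      (∃ i, c i = 2 ∨ (i ∈ O ∧ i ∉ A) ∨ (z ∧ c i = 0)) →
      (∑ i ∈ A, (b i : ℤ) ≠ ∑ i ∈ O \ A, (b i : ℤ)) → HasAP 3 (sums b) := by
    intro A z _ hAO hX hY hne
    refine ap_of_sets b
      (Finset.univ.filter (fun i => c i = 2 ∨ i ∈ A ∨ (z ∧ c i = 0)))
      (Finset.univ.filter (fun i => c i = 2 ∨ (i ∈ O ∧ i ∉ A) ∨ (z ∧ c i = 0)))
      (Finset.univ.filter (fun i => c i < 0 ∨ (z ∧ c i = 0)))
      ?_ ?_ ?_ c ?_ hc0 ?_
    · obtain ⟨i, hi⟩ := hX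
      exact ⟨i, by simpa using hi⟩
    · obtain ⟨i, hi⟩ := hY
      exact ⟨i, by simpa using hi⟩
    · obtain ⟨i, hi⟩ := hneg
      exact ⟨i, by simp [hi]⟩
    · intro i
      have hO' : i ∈ O ↔ (c i = 1 ∨ c i = -1) := by rw [hO]; simp
      have hA' : i ∈ A → (c i = 1 ∨ c i = -1) := fun h => hO'.1 (hAO h)
      have hb' := hcb i
      simp only [Finset.mem_filter, Finset.mem_univ, true_and]
      by_cases hiA : i ∈ A <;> by_cases hz : z <;>
        rcases (by omega : c i = -2 ∨ c i = -1 ∨ c i = 0 ∨ c i = 1 ∨ c i = 2) with h | h | h | h | h <;>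
        simp [hiA, hz, h, hO'] <;> simp_all
    · intro heq
      apply hne
      have d1 : ∑ i ∈ Finset.univ.filter (fun i => c i = 2 ∨ i ∈ A ∨ (z ∧ c i = 0)), (b i : ℤ)
          = ∑ i ∈ Finset.univ.filter (fun i => c i = 2 ∨ (z ∧ c i = 0)), (b i : ℤ)
            + ∑ i ∈ A, (b i : ℤ) := by
        rw [← Finset.sum_union]
        · apply Finset.sum_congr _ (fun _ _ => rfl)
          ext i
          simp only [Finset.mem_filter, Finset.mem_univ, true_and, Finset.mem_union]
          tauto
        · rw [Finset.disjoint_left]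
          intro i hi hiA
          have := hAO hiA
          simp only [hO, Finset.mem_filter, Finset.mem_univ, true_and] at hi this
          omega
      have d2 : ∑ i ∈ Finset.univ.filter (fun i => c i = 2 ∨ (i ∈ O ∧ i ∉ A) ∨ (z ∧ c i = 0)), (b i : ℤ)
          = ∑ i ∈ Finset.univ.filter (fun i => c i = 2 ∨ (z ∧ c i = 0)), (b i : ℤ)
            + ∑ i ∈ O \ A, (b i : ℤ) := by
        rw [← Finset.sum_union]
        · apply Finset.sum_congr _ (fun _ _ => rfl)
          ext i
          simp only [Finset.mem_filter, Finset.mem_univ, true_and, Finset.mem_union,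
            Finset.mem_sdiff]
          tauto
        · rw [Finset.disjoint_left]
          intro i hi hiA
          rw [Finset.mem_sdiff] at hiA
          have := hiA.1
          simp only [hO, Finset.mem_filter, Finset.mem_univ, true_and] at hi this
          omega
      rw [d1, d2] at heq
      linarith
  rcases Nat.lt_or_ge O.card 1 with h0 | h0
  · -- no odd coefficient
    have hOe : O = ∅ := Finset.card_eq_zero.1 (by omega)
    have hno : ∀ i, c i = -2 ∨ c i = 0 ∨ c i = 2 := by
      intro i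
      have h1 : i ∉ O := by rw [hOe]; simp
      rw [hO] at h1
      simp only [Finset.mem_filter, Finset.mem_univ, true_and] at h1
      have := hcb i
      omega
    set P := Finset.univ.filter (fun i => c i = 2) with hP
    set N := Finset.univ.filter (fun i => c i = -2) with hN
    have hPne : P.Nonempty := by
      obtain ⟨i, hi⟩ := hposc
      exact ⟨i, by rw [hP]; simp; have := hno i; omega⟩
    have hNne : N.Nonempty := by
      obtain ⟨i, hi⟩ := hneg
      exact ⟨i, by rw [hN]; simp; have := hno i; omega⟩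
    have hdis : Disjoint P N := by
      rw [Finset.disjoint_left]
      intro i h1 h2
      rw [hP, Finset.mem_filter] at h1
      rw [hN, Finset.mem_filter] at h2
      omega
    have heq : ∑ i ∈ P, (b i : ℤ) = ∑ i ∈ N, (b i : ℤ) := by
      have : ∑ i, c i * (b i : ℤ) = 2 * ∑ i ∈ P, (b i : ℤ) - 2 * ∑ i ∈ N, (b i : ℤ) := by
        rw [sum_ind b P, sum_ind b N, Finset.mul_sum, Finset.mul_sum, ← Finset.sum_sub_distrib]
        apply Finset.sum_congr rfl
        intro i _
        have e1 : i ∈ P ↔ c i = 2 := by rw [hP]; simp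
        have e2 : i ∈ N ↔ c i = -2 := by rw [hN]; simp
        rcases hno i with h | h | h <;> simp [e1, e2, h]
      rw [hc0] at this
      linarith
    rcases Nat.lt_or_ge P.card 2 with h1 | h1
    · rcases Nat.lt_or_ge N.card 2 with h2 | h2
      · exfalso
        obtain ⟨p, hp⟩ := Finset.card_eq_one.1 (show P.card = 1 by
          have := Finset.card_pos.2 hPne; omega)
        obtain ⟨q, hq⟩ := Finset.card_eq_one.1 (show N.card = 1 by
          have := Finset.card_pos.2 hNne; omega)
        rw [hp, hq, Finset.sum_singleton, Finset.sum_singleton] at heq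
        have hpq : p = q := hinj (by exact_mod_cast heq)
        rw [hp, hq, hpq] at hdis
        simp at hdis
      · exact ap_of_eq b hpos N P hdis.symm h2 hPne heq.symm
    · exact ap_of_eq b hpos P N hdis h1 hNne heq
  rcases Nat.lt_or_ge O.card 2 with h1 | h1
  · -- exactly one odd coefficient
    obtain ⟨p, hp⟩ := Finset.card_eq_one.1 (show O.card = 1 by omega)
    have hpO : p ∈ O := by rw [hp]; simp
    by_cases hex : ∃ i, c i = 2 ∨ c i = 0
    · refine gen O True (Finset.Subset.refl _) ⟨p, Or.inr (Or.inl hpO)⟩ ?_ ?_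
      · obtain ⟨i, hi⟩ := hex
        exact ⟨i, by tauto⟩
      · rw [Finset.sdiff_self, Finset.sum_empty]
        exact (sum_pos_of b hpos O ⟨p, hpO⟩).ne'
    · push Not at hex
      -- all other coefficients are -2
      have hoth : ∀ i, i ≠ p → c i = -2 := by
        intro i hi
        have h2 : i ∉ O := by rw [hp]; simpa using hi
        rw [hO] at h2
        simp only [Finset.mem_filter, Finset.mem_univ, true_and] at h2
        have := hcb i
        have := hex i
        omega
      have hcp : c p = 1 := by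
        rw [hO] at hpO
        simp only [Finset.mem_filter, Finset.mem_univ, true_and] at hpO
        rcases hpO with h | h
        · exact h
        · exfalso
          obtain ⟨i, hi⟩ := hposc
          by_cases hip : i = p
          · rw [hip] at hi; omega
          · have := hoth i hip; omega
      set R := Finset.univ.erase p with hR
      have hsum : (b p : ℤ) = 2 * ∑ i ∈ R, (b i : ℤ) := by
        rw [← Finset.add_sum_erase Finset.univ _ (Finset.mem_univ p), hcp] at hc0
        have : ∑ x ∈ Finset.univ.erase p, c x * (b x : ℤ) = ∑ x ∈ R, (-2) * (b x : ℤ) := by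
          apply Finset.sum_congr rfl
          intro i hi
          rw [hoth i (Finset.ne_of_mem_erase hi)]
        rw [this, ← Finset.mul_sum] at hc0
        linarith
      have hRne : R.Nonempty := by
        rw [Finset.nonempty_iff_ne_empty]
        intro hRe
        rw [hRe, Finset.sum_empty] at hsum
        have := hbz p
        omega
      have hRpos := sum_pos_of b hpos R hRne
      refine ⟨∑ i ∈ R, (b i : ℤ), ∑ i ∈ R, (b i : ℤ), hRpos.ne', ?_⟩
      intro i hi
      interval_cases i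
      · exact ⟨R, hRne, by push_cast; ring⟩
      · exact ⟨{p}, Finset.singleton_nonempty _, by rw [Finset.sum_singleton, hsum]; push_cast; ring⟩
      · refine ⟨Finset.univ, ⟨p, Finset.mem_univ _⟩, ?_⟩
        rw [← Finset.add_sum_erase Finset.univ _ (Finset.mem_univ p), hsum]
        push_cast; ring
  · -- at least two odd coefficients
    obtain ⟨p, hp⟩ : O.Nonempty := Finset.card_pos.1 (by omega)
    set R := O.erase p with hR
    have hRc : R.card = O.card - 1 := Finset.card_erase_of_mem hp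
    obtain ⟨q, hq⟩ : R.Nonempty := Finset.card_pos.1 (by omega)
    have hqO : q ∈ O := Finset.mem_of_mem_erase hq
    have hqp : q ≠ p := Finset.ne_of_mem_erase hq
    have hOp : O \ {p} = R := by rw [hR, Finset.sdiff_singleton_eq_erase]
    by_cases hbp : (b p : ℤ) = ∑ i ∈ R, (b i : ℤ)
    · -- use {p, q}
      have hR2 : 2 ≤ R.card := by
        by_contra hcon
        have : R.card = 1 := by
          have := Finset.card_pos.2 ⟨q, hq⟩
          omega
        obtain ⟨q', hq'⟩ := Finset.card_eq_one.1 this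
        rw [hq'] at hq hbp
        rw [Finset.mem_singleton] at hq
        rw [Finset.sum_singleton, ← hq] at hbp
        exact hqp (hinj (by exact_mod_cast hbp.symm))
      obtain ⟨s, hs⟩ : (R.erase q).Nonempty := by
        rw [← Finset.card_pos, Finset.card_erase_of_mem hq]; omega
      have hsdiff : O \ {p, q} = R.erase q := by
        ext i
        simp only [Finset.mem_sdiff, Finset.mem_insert, Finset.mem_singleton, hR, Finset.mem_erase]
        tauto
      refine gen {p, q} False ?_ ⟨p, Or.inr (Or.inl (by simp))⟩ ?_ ?_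
      · intro i hi
        rw [Finset.mem_insert, Finset.mem_singleton] at hi
        rcases hi with rfl | rfl
        · exact hp
        · exact hqO
      · refine ⟨s, Or.inr (Or.inl ?_)⟩
        rw [← Finset.mem_sdiff, hsdiff]
        exact hs
      · rw [hsdiff, Finset.sum_pair hqp.symm]
        have e := Finset.add_sum_erase R (fun i => (b i : ℤ)) hq
        have := hbz q
        intro hcon
        linarith
    · refine gen {p} False (Finset.singleton_subset_iff.2 hp) ⟨p, Or.inr (Or.inl (by simp))⟩ ?_ ?_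
      · exact ⟨q, Or.inr (Or.inl ⟨hqO, by simpa using hqp⟩)⟩
      · rw [hOp, Finset.sum_singleton]
        exact hbp


/-! ### The lower bound -/

/-- `2M + 1` distinct integers have sum of squares at least `2 (1² + … + M²)`. -/
lemma sumsq_lower (M : ℕ) : ∀ S : Finset ℤ, S.card = 2 * M + 1 →
    (M : ℤ) * (M + 1) * (2 * M + 1) ≤ 3 * ∑ x ∈ S, x ^ 2 := by
  induction M with
  | zero =>
    intro S _
    have := Finset.sum_nonneg (s := S) (f := fun x : ℤ => x ^ 2) (fun x _ => sq_nonneg x)
    push_cast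
    linarith
  | succ M ih =>
    intro S hS
    -- elements of absolute value at most M
    set B := S.filter (fun x => |x| ≤ (M : ℤ)) with hB
    have hBsub : B ⊆ Finset.Icc (-(M : ℤ)) M := by
      intro x hx
      rw [hB, Finset.mem_filter] at hx
      rw [Finset.mem_Icc]
      exact abs_le.1 hx.2
    have hBc : B.card ≤ 2 * M + 1 := by
      have := Finset.card_le_card hBsub
      rw [Int.card_Icc] at this
      omega
    have hC : 2 ≤ (S.filter (fun x => ¬ |x| ≤ (M : ℤ))).card := by
      have := Finset.card_filter_add_card_filter_not (s := S) (fun x => |x| ≤ (M : ℤ))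
      rw [← hB] at this
      omega
    obtain ⟨x, hx, y, hy, hxy⟩ := Finset.one_lt_card.1 (show 1 < _ from hC)
    rw [Finset.mem_filter, not_le] at hx hy
    have hyS : y ∈ S.erase x := Finset.mem_erase.2 ⟨hxy.symm, hy.1⟩
    have h1 := ih ((S.erase x).erase y) (by
      rw [Finset.card_erase_of_mem hyS, Finset.card_erase_of_mem hx.1]; omega)
    have e1 := Finset.add_sum_erase S (fun x => x ^ 2) hx.1
    have e2 := Finset.add_sum_erase (S.erase x) (fun x => x ^ 2) hyS
    have sx : ((M : ℤ) + 1) ^ 2 ≤ x ^ 2 := by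
      rw [← sq_abs x]
      have : (M : ℤ) + 1 ≤ |x| := hx.2
      nlinarith [this]
    have sy : ((M : ℤ) + 1) ^ 2 ≤ y ^ 2 := by
      rw [← sq_abs y]
      have : (M : ℤ) + 1 ≤ |y| := hy.2
      nlinarith [this]
    push_cast
    nlinarith [h1, e1, e2, sx, sy]

/-- the second moment of the ternary sums -/
lemma second_moment : ∀ (k : ℕ) (b : Fin k → ℕ),
    3 * ∑ d : Fin k → Fin 3, (∑ i, ((d i : ℕ) - 1 : ℤ) * (b i : ℤ)) ^ 2
      = 2 * 3 ^ k * ∑ i, (b i : ℤ) ^ 2 := by
  intro k
  induction k with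
  | zero => intro b; simp
  | succ k ih =>
    intro b
    have hsplit : ∑ d : Fin (k + 1) → Fin 3, (∑ i, ((d i : ℕ) - 1 : ℤ) * (b i : ℤ)) ^ 2
        = ∑ e : Fin k → Fin 3, ∑ a : Fin 3,
          (((a : ℕ) - 1 : ℤ) * (b 0 : ℤ) + ∑ i, ((e i : ℕ) - 1 : ℤ) * (b (Fin.succ i) : ℤ)) ^ 2 := by
      rw [← (Fin.consEquiv (fun _ : Fin (k + 1) => Fin 3)).sum_comp, Fintype.sum_prod_type,
        Finset.sum_comm]
      apply Finset.sum_congr rfl
      intro e _
      apply Finset.sum_congr rfl
      intro a _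
      rw [Fin.sum_univ_succ]
      simp [Fin.consEquiv]
    have hcard : ∑ _e : Fin k → Fin 3, (1 : ℤ) = 3 ^ k := by
      simp [Finset.card_univ]
    rw [hsplit]
    have h3 : ∀ e : Fin k → Fin 3, ∑ a : Fin 3,
          (((a : ℕ) - 1 : ℤ) * (b 0 : ℤ) + ∑ i, ((e i : ℕ) - 1 : ℤ) * (b (Fin.succ i) : ℤ)) ^ 2
        = 3 * (∑ i, ((e i : ℕ) - 1 : ℤ) * (b (Fin.succ i) : ℤ)) ^ 2 + 2 * (b 0 : ℤ) ^ 2 * 1 := by
      intro e
      rw [Fin.sum_univ_three]
      simp only [Fin.val_zero, Fin.val_one, Fin.val_two]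
      push_cast
      ring
    rw [Finset.sum_congr rfl fun e _ => h3 e, Finset.sum_add_distrib, ← Finset.mul_sum,
      ← Finset.mul_sum, hcard]
    have := ih (fun i => b (Fin.succ i))
    rw [Fin.sum_univ_succ (fun i => (b i : ℤ) ^ 2), show (3 : ℤ) ^ (k + 1) = 3 ^ k * 3 from pow_succ _ _]
    linear_combination 3 * this

lemma tern_lower {k : ℕ} (b : Fin k → ℕ) (hb : Tern b) :
    (9 : ℤ) ^ k - 1 ≤ 8 * ∑ i, (b i : ℤ) ^ 2 := by
  classical
  set F : (Fin k → Fin 3) → ℤ := fun d => ∑ i, ((d i : ℕ) - 1 : ℤ) * (b i : ℤ) with hF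
  have hinj : Function.Injective F := by
    intro d e hde
    have h := hb (fun i => ((d i : ℕ) : ℤ) - (e i : ℕ)) (by
      intro i
      have h1 := (d i).isLt
      have h2 := (e i).isLt
      constructor <;> omega) (by
      have : ∑ i, (((d i : ℕ) : ℤ) - (e i : ℕ)) * (b i : ℤ) = F d - F e := by
        rw [hF]
        dsimp only
        rw [← Finset.sum_sub_distrib]
        apply Finset.sum_congr rfl
        intro i _
        ring
      rw [this, hde, sub_self])
    funext i
    have := h i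
    apply Fin.ext
    omega
  set S := Finset.univ.image F with hS
  have hScard : S.card = 3 ^ k := by
    rw [hS, Finset.card_image_of_injective _ hinj]
    simp [Finset.card_univ]
  have hsum : ∑ x ∈ S, x ^ 2 = ∑ d, (F d) ^ 2 := by
    rw [hS, Finset.sum_image (fun x _ y _ h => hinj h)]
  obtain ⟨M, hM⟩ : ∃ M, 3 ^ k = 2 * M + 1 := by
    have : Odd (3 ^ k) := Odd.pow (by decide)
    exact this
  have h1 := sumsq_lower M S (by rw [hScard, hM])
  have h2 := second_moment k b
  rw [hsum] at h1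
  have hMz : (3 : ℤ) ^ k = 2 * M + 1 := by exact_mod_cast hM
  have h9 : (9 : ℤ) ^ k = (2 * M + 1) ^ 2 := by
    rw [← hMz, ← pow_mul, mul_comm k 2, pow_mul]; norm_num
  have h3 : (M : ℤ) * (M + 1) * (2 * M + 1) ≤ 2 * (2 * M + 1) * ∑ i, (b i : ℤ) ^ 2 := by
    rw [hMz] at h2
    exact h1.trans h2.le
  rw [h9]
  have hpos : (0 : ℤ) < 2 * M + 1 := by positivity
  have h4 : (2 * (M : ℤ) + 1) * (M * (M + 1)) ≤ (2 * M + 1) * (2 * ∑ i, (b i : ℤ) ^ 2) := by
    linarith
  have h5 := le_of_mul_le_mul_left h4 hpos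
  nlinarith [h5]


/-! ### The upper bound -/

lemma tern_extend {k : ℕ} (b : Fin k → ℕ) (hb : Tern b) :
    Tern (Fin.cons 1 (fun i => 3 * b i) : Fin (k + 1) → ℕ) := by
  intro c hc h0
  rw [Fin.sum_univ_succ] at h0
  simp only [Fin.cons_zero, Fin.cons_succ] at h0
  push_cast at h0
  have e : ∑ i : Fin k, c i.succ * (3 * (b i : ℤ)) = 3 * ∑ i : Fin k, c i.succ * (b i : ℤ) := by
    rw [Finset.mul_sum]
    apply Finset.sum_congr rfl
    intro i _
    ring
  rw [e] at h0
  have h1 := hc 0
  have hc0 : c 0 = 0 := by omega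
  have h2 : ∑ i : Fin k, c i.succ * (b i : ℤ) = 0 := by
    rw [hc0] at h0
    omega
  have h3 := hb (fun i => c i.succ) (fun i => hc i.succ) h2
  intro i
  refine Fin.cases hc0 (fun j => h3 j) i

/-- `m` is the largest term of a sequence of length `k` with distinct ternary sums. -/
def Good (k m : ℕ) : Prop :=
  ∃ b : Fin k → ℕ, StrictMono b ∧ (∀ i, 0 < b i) ∧ Tern b ∧ IsGreatest (Set.range b) m

lemma good_extend {k m : ℕ} (h : Good k m) : Good (k + 1) (3 * m) := by
  obtain ⟨b, hmono, hpos, ht, ⟨⟨i, hi⟩, hmax⟩⟩ := h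
  refine ⟨Fin.cons 1 (fun i => 3 * b i), ?_, ?_, tern_extend b ht, ⟨⟨i.succ, ?_⟩, ?_⟩⟩
  · intro x y hxy
    induction x using Fin.cases with
    | zero =>
      induction y using Fin.cases with
      | zero => exact absurd hxy (lt_irrefl _)
      | succ y =>
        simp only [Fin.cons_zero, Fin.cons_succ]
        have := hpos y
        omega
    | succ x =>
      induction y using Fin.cases with
      | zero => exact absurd hxy (by simp)
      | succ y =>
        simp only [Fin.cons_succ]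
        have := hmono (Fin.succ_lt_succ_iff.1 hxy)
        omega
  · intro x
    induction x using Fin.cases with
    | zero => simp
    | succ x =>
      simp only [Fin.cons_succ]
      have := hpos x
      omega
  · rw [Fin.cons_succ, hi]
  · rintro _ ⟨x, rfl⟩
    induction x using Fin.cases with
    | zero =>
      simp only [Fin.cons_zero]
      have := hpos i
      omega
    | succ x =>
      simp only [Fin.cons_succ]
      have : b x ≤ m := hmax ⟨x, rfl⟩
      omega

lemma g_le_of_good {k m : ℕ} (h : Good k m) : g 3 k ≤ m := by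
  obtain ⟨b, hmono, hpos, ht, hg⟩ := h
  exact Nat.sInf_le ⟨b, hmono, hpos, not_hasAP_of_tern b ht, hg⟩

/-- Check by bit masks that the sums with coefficients `0, 1, 2` are distinct. -/
def chk : List ℕ → ℕ → Bool
  | [], _ => true
  | a :: l, s => (Nat.land s (Nat.shiftLeft s a) == 0) && (Nat.land s (Nat.shiftLeft s (2 * a)) == 0)
      && chk l (Nat.lor s (Nat.lor (Nat.shiftLeft s a) (Nat.shiftLeft s (2 * a))))

lemma testBit_shift (s a x : ℕ) (h : s.testBit x = true) :
    (Nat.shiftLeft s a).testBit (x + a) = true := by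
  have : (s <<< a).testBit (x + a) = true := by
    rw [Nat.testBit_shiftLeft]
    simp [h]
  exact this

lemma land_ne (s t y : ℕ) (hs : s.testBit y = true) (ht : t.testBit y = true) :
    Nat.land s t ≠ 0 := by
  intro h
  have h1 : (s &&& t).testBit y = true := by
    rw [Nat.testBit_and, hs, ht]; rfl
  have h2 : s &&& t = 0 := h
  rw [h2] at h1
  simp at h1

lemma lor_left (s t y : ℕ) (hs : s.testBit y = true) : (Nat.lor s t).testBit y = true := by
  have : (s ||| t).testBit y = true := by rw [Nat.testBit_or, hs]; rfl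
  exact this

lemma lor_right (s t y : ℕ) (ht : t.testBit y = true) : (Nat.lor s t).testBit y = true := by
  have : (s ||| t).testBit y = true := by rw [Nat.testBit_or, ht]; simp
  exact this

lemma chk_sound : ∀ (k : ℕ) (b : Fin k → ℕ) (s : ℕ), chk (List.ofFn b) s = true →
    ∀ c : Fin k → ℤ, (∀ i, -2 ≤ c i ∧ c i ≤ 2) → ∀ x y : ℕ, s.testBit x = true →
      s.testBit y = true → (x : ℤ) + ∑ i, c i * (b i : ℤ) = y → ∀ i, c i = 0 := by
  intro k
  induction k with
  | zero => intro b s _ c _ x y _ _ _ i; exact i.elim0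
  | succ k ih =>
    intro b s hs c hc x y hx hy hxy
    rw [List.ofFn_succ] at hs
    simp only [chk, Bool.and_eq_true, beq_iff_eq] at hs
    obtain ⟨⟨h1, h2⟩, h3⟩ := hs
    set s' := Nat.lor s (Nat.lor (Nat.shiftLeft s (b 0)) (Nat.shiftLeft s (2 * b 0))) with hs'
    rw [Fin.sum_univ_succ] at hxy
    have m0 : ∀ z, s.testBit z = true → s'.testBit z = true := fun z hz => lor_left _ _ _ hz
    have m1 : ∀ z, s.testBit z = true → s'.testBit (z + b 0) = true :=
      fun z hz => lor_right _ _ _ (lor_left _ _ _ (testBit_shift _ _ _ hz))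
    have m2 : ∀ z, s.testBit z = true → s'.testBit (z + 2 * b 0) = true :=
      fun z hz => lor_right _ _ _ (lor_right _ _ _ (testBit_shift _ _ _ hz))
    have key : ∀ x' y' : ℕ, s'.testBit x' = true → s'.testBit y' = true →
        (x' : ℤ) + ∑ i : Fin k, c i.succ * (b i.succ : ℤ) = y' →
        (∀ i : Fin k, c i.succ = 0) ∧ x' = y' := by
      intro x' y' hx' hy' he
      have hz := ih (fun i => b i.succ) s' h3 (fun i => c i.succ) (fun i => hc i.succ) x' y'
        hx' hy' he
      refine ⟨hz, ?_⟩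
      have : ∑ i : Fin k, c i.succ * (b i.succ : ℤ) = 0 := by
        apply Finset.sum_eq_zero
        intro i _
        rw [hz i, zero_mul]
      rw [this, add_zero] at he
      exact_mod_cast he
    have fin : c 0 = 0 ∧ ∀ i : Fin k, c i.succ = 0 := by
      have hc0 := hc 0
      rcases (by omega : c 0 = -2 ∨ c 0 = -1 ∨ c 0 = 0 ∨ c 0 = 1 ∨ c 0 = 2) with h | h | h | h | h
      · exfalso
        obtain ⟨_, he⟩ := key x (y + 2 * b 0) (m0 x hx) (m2 y hy) (by
          rw [h] at hxy; push_cast; linarith)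
        have hsh := testBit_shift s (2 * b 0) y hy
        rw [← he] at hsh
        exact land_ne _ _ x hx hsh h2
      · exfalso
        obtain ⟨_, he⟩ := key x (y + b 0) (m0 x hx) (m1 y hy) (by
          rw [h] at hxy; push_cast; linarith)
        have hsh := testBit_shift s (b 0) y hy
        rw [← he] at hsh
        exact land_ne _ _ x hx hsh h1
      · refine ⟨h, (key x y (m0 x hx) (m0 y hy) (by rw [h] at hxy; linarith)).1⟩
      · exfalso
        obtain ⟨_, he⟩ := key (x + b 0) y (m1 x hx) (m0 y hy) (by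
          rw [h] at hxy; push_cast; linarith)
        have hsh := testBit_shift s (b 0) x hx
        rw [he] at hsh
        exact land_ne _ _ y hy hsh h1
      · exfalso
        obtain ⟨_, he⟩ := key (x + 2 * b 0) y (m2 x hx) (m0 y hy) (by
          rw [h] at hxy; push_cast; linarith)
        have hsh := testBit_shift s (2 * b 0) x hx
        rw [he] at hsh
        exact land_ne _ _ y hy hsh h2
    intro i
    refine Fin.cases fin.1 (fun j => fin.2 j) i

lemma tern_of_chk {k : ℕ} (b : Fin k → ℕ) (h : chk (List.ofFn b) 1 = true) : Tern b := by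
  intro c hc h0
  exact chk_sound k b 1 h c hc 0 0 (by decide) (by decide) (by simpa using h0)

/-- the sequence of length 14 -/
def b14 : Fin 14 → ℕ := ![594640, 793738, 861292, 884216, 891960, 894614, 895524, 895832, 895941,
  895979, 895993, 895998, 896000, 896001]

lemma good14 : Good 14 896001 := by
  refine ⟨b14, ?_, ?_, ?_, ⟨⟨13, rfl⟩, ?_⟩⟩
  · rw [Fin.strictMono_iff_lt_succ]
    decide
  · decide
  · apply tern_of_chk
    decide +kernel
  · rintro _ ⟨x, rfl⟩
    revert x
    decide

lemma good14_ext (j : ℕ) : Good (14 + j) (896001 * 3 ^ j) := by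
  induction j with
  | zero => simpa using good14
  | succ j ih =>
    have := good_extend ih
    have e : 3 * (896001 * 3 ^ j) = 896001 * 3 ^ (j + 1) := by rw [pow_succ]; ring
    rw [e] at this
    exact this

lemma good3 : Good 3 8 := by
  refine ⟨![5, 7, 8], ?_, ?_, ?_, ⟨⟨2, rfl⟩, ?_⟩⟩
  · rw [Fin.strictMono_iff_lt_succ]
    decide
  · decide
  · apply tern_of_chk
    decide +kernel
  · rintro _ ⟨x, rfl⟩
    revert x
    decide

lemma good3_ext (j : ℕ) : Good (3 + j) (8 * 3 ^ j) := by
  induction j with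
  | zero => simpa using good3
  | succ j ih =>
    have := good_extend ih
    have e : 3 * (8 * 3 ^ j) = 8 * 3 ^ (j + 1) := by rw [pow_succ]; ring
    rw [e] at this
    exact this

/-- the sequence `1, 3, 9, …` -/
lemma good_pow (k : ℕ) : Good (k + 1) (3 ^ k) := by
  induction k with
  | zero =>
    refine ⟨![1], ?_, ?_, ?_, ⟨⟨0, rfl⟩, ?_⟩⟩
    · intro x y hxy
      omega
    · decide
    · apply tern_of_chk
      decide +kernel
    · rintro _ ⟨x, rfl⟩
      revert x
      decide
  | succ k ih =>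
    have := good_extend ih
    rw [show 3 * 3 ^ k = 3 ^ (k + 1) by rw [pow_succ]; ring] at this
    exact this

/-- the infimum in the definition of `g` is attained -/
lemma g_attained (k : ℕ) (hk : 1 ≤ k) : ∃ b : Fin k → ℕ, StrictMono b ∧ (∀ i, 0 < b i) ∧
    ¬ HasAP 3 (sums b) ∧ IsGreatest (Set.range b) (g 3 k) := by
  obtain ⟨j, rfl⟩ : ∃ j, k = j + 1 := ⟨k - 1, by omega⟩
  obtain ⟨b, hmono, hpos, ht, hg⟩ := good_pow j
  exact Nat.sInf_mem (s := {m | ∃ b : Fin (j + 1) → ℕ, StrictMono b ∧ (∀ i, 0 < b i) ∧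
    ¬ HasAP 3 (sums b) ∧ IsGreatest (Set.range b) m}) ⟨_, b, hmono, hpos, not_hasAP_of_tern b ht, hg⟩

lemma lower (k : ℕ) (hk : 1 ≤ k) : (9 : ℤ) ^ k - 1 ≤ 8 * k * (g 3 k : ℤ) ^ 2 := by
  obtain ⟨b, hmono, hpos, hap, hg⟩ := g_attained k hk
  have ht : Tern b := by
    by_contra hcon
    exact hap (hasAP_of_not_tern b hmono.injective hpos hcon)
  have h1 := tern_lower b ht
  have h2 : ∑ i, (b i : ℤ) ^ 2 ≤ ∑ _i : Fin k, (g 3 k : ℤ) ^ 2 := by
    apply Finset.sum_le_sum
    intro i _
    have : b i ≤ g 3 k := hg.2 ⟨i, rfl⟩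
    have h3 : (b i : ℤ) ≤ g 3 k := by exact_mod_cast this
    have h4 : (0 : ℤ) ≤ b i := by positivity
    nlinarith
  rw [Finset.sum_const, Finset.card_univ, Fintype.card_fin, nsmul_eq_mul] at h2
  linarith

lemma small_check : ∀ x y z : Fin 8, 0 < x.val → x < y → y < z → ∃ c0 c1 c2 : Fin 5,
    ¬ (c0 = 2 ∧ c1 = 2 ∧ c2 = 2) ∧
    ((c0.val : ℤ) - 2) * x.val + ((c1.val : ℤ) - 2) * y.val + ((c2.val : ℤ) - 2) * z.val = 0 := by
  decide +kernel

lemma g3_ge : 8 ≤ g 3 3 := by
  obtain ⟨b, hmono, hpos, hap, hg⟩ := g_attained 3 (by norm_num)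
  have ht : Tern b := by
    by_contra hcon
    exact hap (hasAP_of_not_tern b hmono.injective hpos hcon)
  by_contra hlt
  have hle : ∀ i, b i < 8 := fun i => by
    have : b i ≤ g 3 3 := hg.2 ⟨i, rfl⟩
    omega
  have h01 : b 0 < b 1 := hmono (by decide)
  have h12 : b 1 < b 2 := hmono (by decide)
  obtain ⟨c0, c1, c2, hne, hsum⟩ := small_check ⟨b 0, hle 0⟩ ⟨b 1, hle 1⟩ ⟨b 2, hle 2⟩ (hpos 0)
    h01 h12
  have := ht ![(c0.val : ℤ) - 2, (c1.val : ℤ) - 2, (c2.val : ℤ) - 2] (by
    intro i
    have h0 := c0.isLt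
    have h1 := c1.isLt
    have h2 := c2.isLt
    fin_cases i
    · exact (by constructor <;> omega : -2 ≤ (c0.val : ℤ) - 2 ∧ (c0.val : ℤ) - 2 ≤ 2)
    · exact (by constructor <;> omega : -2 ≤ (c1.val : ℤ) - 2 ∧ (c1.val : ℤ) - 2 ≤ 2)
    · exact (by constructor <;> omega : -2 ≤ (c2.val : ℤ) - 2 ∧ (c2.val : ℤ) - 2 ≤ 2)) (by
    rw [Fin.sum_univ_three]
    simpa using hsum)
  apply hne
  have t0 := this 0
  have t1 := this 1
  have t2 := this 2
  simp at t0 t1 t2
  refine ⟨Fin.ext ?_, Fin.ext ?_, Fin.ext ?_⟩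
  · show c0.val = 2
    omega
  · show c1.val = 2
    omega
  · show c2.val = 2
    omega

/-- The conjectured value `3^(k-1)` of `g_3(k)` is wrong exactly for `k ≥ 3`; moreover
`g_3(k) < 0.562 * 3^(k-1)` for `k ≥ 14` and `8 k g_3(k)^2 ≥ 9^k - 1`. -/
theorem result :
    (∀ k, 3 ≤ k → g 3 k < 3 ^ (k - 1)) ∧
    (∀ k, 14 ≤ k → (g 3 k : ℝ) < 0.562 * 3 ^ (k - 1)) ∧
    (∀ k, 1 ≤ k → ((9 : ℝ) ^ k - 1) / (8 * k) ≤ (g 3 k : ℝ) ^ 2) ∧
    g 3 1 = 1 ∧ g 3 2 = 3 ∧ g 3 3 = 8 := by
  refine ⟨?_, ?_, ?_, ?_, ?_, ?_⟩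
  · intro k hk
    obtain ⟨j, rfl⟩ : ∃ j, k = 3 + j := ⟨k - 3, by omega⟩
    have h := g_le_of_good (good3_ext j)
    have e : 3 ^ (3 + j - 1) = 9 * 3 ^ j := by
      rw [show 3 + j - 1 = j + 2 by omega, pow_add]; ring
    rw [e]
    have : 0 < 3 ^ j := by positivity
    omega
  · intro k hk
    obtain ⟨j, rfl⟩ : ∃ j, k = 14 + j := ⟨k - 14, by omega⟩
    have h : (g 3 (14 + j) : ℝ) ≤ 896001 * 3 ^ j := by exact_mod_cast g_le_of_good (good14_ext j)
    have e : (3 : ℝ) ^ (14 + j - 1) = 1594323 * 3 ^ j := by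
      rw [show 14 + j - 1 = j + 13 by omega, pow_add]; norm_num; ring
    rw [e]
    have : (0 : ℝ) < 3 ^ j := by positivity
    nlinarith
  · intro k hk
    have h := lower k hk
    have hk' : (0 : ℝ) < 8 * k := by
      have : (0 : ℝ) < k := by exact_mod_cast hk
      positivity
    rw [div_le_iff₀ hk']
    have h2 : ((9 : ℝ) ^ k - 1) ≤ 8 * k * (g 3 k : ℝ) ^ 2 := by exact_mod_cast h
    linarith
  · apply le_antisymm
    · exact g_le_of_good (good_pow 0)
    · obtain ⟨b, _, hpos, _, ⟨i, hi⟩, _⟩ := g_attained 1 le_rfl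
      rw [← hi]
      exact hpos i
  · apply le_antisymm
    · exact g_le_of_good (good_pow 1)
    · have h := lower 2 (by norm_num)
      by_contra hlt
      have : g 3 2 ≤ 2 := by omega
      have h2 : (g 3 2 : ℤ) ≤ 2 := by exact_mod_cast this
      have h3 : (0 : ℤ) ≤ g 3 2 := by positivity
      norm_num at h
      nlinarith
  · exact le_antisymm (g_le_of_good good3) g3_ge

end Pool.Agent.Results.MP_727445_co.SubsetSumsAP
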